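import Pool.Agent.H13.L.Rb67.E8helper54.SG.Core

/-!
Closure properties: groups which embed residually in sofic groups, products, free products.
-/

set_option autoImplicit false

namespace Pool.Agent.E8helper54.SH

open Finset Equiv Filter Topology Pool.Agent.H21R2 Pool.Agent.E8helper54.SG

universe u v w

/-- residually sofic groups are sofic -/
theorem isSofic_of_residually {G : Type w} [Group G]
    (h : ∀ g : G, g ≠ 1 → ∃ (H : Type u) (_ : Group H) (φ : G →* H), IsSofic H ∧ φ g ≠ 1) :
    IsSofic G := by
  apply isSofic_of_lim.{u, 0, w}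
  intro g hg
  obtain ⟨H, _, φ, hH, hφ⟩ := h g hg
  obtain ⟨J, l, hl, n, hn, ψ, hmul, hfree⟩ := exists_rep hH
  refine ⟨J, l, hl, fun j => Fin (n j), inferInstance, (toLim hmul).comp φ, fun j => ψ j (φ g),
    1 / 2, by norm_num, rfl, ?_⟩
  filter_upwards [(hfree (φ g) hφ).eventually (gt_mem_nhds (show (0 : ℝ) < 1 / 2 by norm_num))]
    with j hj
  have : Nonempty (Fin (n j)) := ⟨⟨0, hn j⟩⟩
  have h2 := fr_not (Y := Fin (n j)) (fun y => ψ j (φ g) y = y)
  change 1 / 2 ≤ fr fun y => ¬ (ψ j (φ g) y = y)
  rw [h2]
  linarith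

theorem isSofic_of_injective {G : Type w} {H : Type u} [Group G] [Group H] (φ : G →* H)
    (hφ : Function.Injective φ) (hH : IsSofic H) : IsSofic G := by
  apply isSofic_of_residually.{u, w}
  intro g hg
  refine ⟨H, inferInstance, φ, hH, fun h => hg (hφ ?_)⟩
  rw [h, map_one]

theorem isSofic_pi {V : Type u} (A : V → Type v) [∀ v, Group (A v)] (hA : ∀ v, IsSofic (A v)) :
    IsSofic (∀ v, A v) := by
  apply isSofic_of_residually.{v, max u v}
  intro g hg
  obtain ⟨v, hv⟩ : ∃ v, g v ≠ 1 := by
    by_contra hc
    push Not at hc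
    exact hg (funext hc)
  exact ⟨A v, inferInstance, Pi.evalMonoidHom A v, hA v, hv⟩

/-- the trivial data: the free product of the base group and a free group -/
def trivData (A : Type u) [Group A] (I : Type u) : SG.Data A PEmpty I where
  D _ := ⊥
  al _ := 1
  be _ := 1
  fA := 1
  τ _ := 1
  hal i d := by
    rcases d with ⟨d, hd⟩
    rw [Subgroup.mem_bot] at hd
    rw [MonoidHom.one_apply]
    exact hd.symm
  hbe i d := by
    rcases d with ⟨d, hd⟩
    rw [Subgroup.mem_bot] at hd
    rw [MonoidHom.one_apply]
    simp [hd]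

theorem isSofic_coprod_free {P : Type u} [Group P] (hP : IsSofic P) (V : Type u) :
    IsSofic (Monoid.Coprod P (FreeGroup V)) := by
  refine SG.sofic_of_data (trivData P V) hP (Monoid.Coprod.inl) (fun v =>
    Monoid.Coprod.inr (FreeGroup.of v)) ?_ ?_ ?_
  · rw [eq_top_iff, ← Monoid.Coprod.range_inl_sup_range_inr, sup_le_iff]
    constructor
    · rintro _ ⟨a, rfl⟩
      exact Subgroup.subset_closure (Or.inl ⟨a, rfl⟩)
    · rintro _ ⟨g, rfl⟩
      induction g using FreeGroup.induction_on with
      | C1 => rw [map_one]; exact one_mem _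
      | of b => exact Subgroup.subset_closure (Or.inr ⟨b, rfl⟩)
      | inv_of b ih => rw [map_inv]; exact inv_mem ih
      | mul g g' ih ih' => rw [map_mul]; exact mul_mem ih ih'
  · intro i d
    change _ * Monoid.Coprod.inl 1 = Monoid.Coprod.inl 1 * _
    rw [map_one, mul_one, one_mul]
  · intro H _ φ s _
    refine ⟨Monoid.Coprod.lift φ (FreeGroup.lift s), fun a => ?_, fun i => ?_⟩
    · exact Monoid.Coprod.lift_apply_inl _ _ _
    · exact (Monoid.Coprod.lift_apply_inr _ _ _).trans FreeGroup.lift_apply_of

open Classical in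
/-- free products of sofic groups are sofic -/
theorem isSofic_coprodI {V : Type u} (A : V → Type u) [∀ v, Group (A v)]
    (hA : ∀ v, IsSofic (A v)) : IsSofic (Monoid.CoprodI A) := by
  have h1 := isSofic_coprod_free (isSofic_pi A hA) V
  let ι : Monoid.CoprodI A →* Monoid.Coprod (∀ v, A v) (FreeGroup V) := Monoid.CoprodI.lift
    fun v => (MulAut.conj (Monoid.Coprod.inr (FreeGroup.of v) :
      Monoid.Coprod (∀ v, A v) (FreeGroup V))).toMonoidHom.comp
        (Monoid.Coprod.inl.comp (MonoidHom.mulSingle A v))
  have hι : ∀ (v : V) (a : A v), ι (Monoid.CoprodI.of a) =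
      Monoid.Coprod.inr (FreeGroup.of v) * Monoid.Coprod.inl (Pi.mulSingle v a) *
        (Monoid.Coprod.inr (FreeGroup.of v))⁻¹ := by
    intro v a
    exact Monoid.CoprodI.lift_of _ _
  -- the action of the base group
  let actP : (∀ v, A v) →* Perm (Option V × Monoid.CoprodI A) :=
    { toFun := fun p =>
        { toFun := fun y => (y.1, (match y.1 with
            | none => 1
            | some v => Monoid.CoprodI.of (p v)) * y.2)
          invFun := fun y => (y.1, (match y.1 with
            | none => 1
            | some v => (Monoid.CoprodI.of (p v))⁻¹) * y.2)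
          left_inv := by
            rintro ⟨_ | v, x⟩ <;> simp
          right_inv := by
            rintro ⟨_ | v, x⟩ <;> simp }
      map_one' := by
        ext1 y
        rcases y with ⟨_ | v, x⟩ <;> simp
      map_mul' := by
        intro p q
        ext1 y
        rcases y with ⟨_ | v, x⟩ <;> simp [mul_assoc] }
  let Φ : Monoid.Coprod (∀ v, A v) (FreeGroup V) →* Perm (Option V × Monoid.CoprodI A) :=
    Monoid.Coprod.lift actP (FreeGroup.lift fun v =>
      Equiv.prodCongr (Equiv.swap (some v) none) (Equiv.refl _))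
  have hΦ1 : ∀ p, Φ (Monoid.Coprod.inl p) = actP p := fun p =>
    Monoid.Coprod.lift_apply_inl _ _ _
  have hΦ2 : ∀ v, Φ (Monoid.Coprod.inr (FreeGroup.of v)) =
      Equiv.prodCongr (Equiv.swap (some v) none) (Equiv.refl _) := fun v =>
    (Monoid.Coprod.lift_apply_inr _ _ _).trans FreeGroup.lift_apply_of
  have key : ∀ (g : Monoid.CoprodI A) (x : Monoid.CoprodI A),
      Φ (ι g) (none, x) = (none, g * x) := by
    intro g
    induction g using Monoid.CoprodI.induction_on with
    | one => intro x; rw [map_one, map_one, one_mul]; rfl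
    | of v a =>
      intro x
      rw [hι, map_mul, map_mul, map_inv, hΦ1, hΦ2, Perm.mul_apply, Perm.mul_apply]
      have h2 : (Equiv.prodCongr (Equiv.swap (some v) none)
          (Equiv.refl (Monoid.CoprodI A)) : Perm (Option V × Monoid.CoprodI A))⁻¹ (none, x) =
          (some v, x) := by
        rw [Perm.inv_eq_iff_eq]
        simp
      rw [h2]
      have h3 : actP (Pi.mulSingle v a) (some v, x) = (some v, Monoid.CoprodI.of a * x) := by
        change (some v, Monoid.CoprodI.of ((Pi.mulSingle v a : ∀ v, A v) v) * x) = _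
        rw [Pi.mulSingle_eq_same]
      rw [h3]
      simp
    | mul g g' ih ih' =>
      intro x
      rw [map_mul, map_mul, Perm.mul_apply, ih', ih, mul_assoc]
  apply isSofic_of_injective ι ?_ h1
  intro g g' h
  have h2 := key g 1
  rw [h, key g' 1] at h2
  have h3 := congrArg Prod.snd h2
  simp only [mul_one] at h3
  exact h3.symm

end Pool.Agent.E8helper54.SH
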